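import Mathlib
import Pool.Agent.helper85.PG.Spec3

set_option autoImplicit false

namespace Pool.Agent.helper85.PG

open Module Pointwise

/-- splitting a sum along a covering. -/
theorem FNB_split {G : Type*} [AddCommGroup G] [DecidableEq G] (A P F : Finset G)
    (h : ∀ a ∈ A, ∃ f ∈ F, a - f ∈ P) :
    ∃ w : G → G → ℂ, (∀ f x, ‖w f x‖ ≤ 1) ∧ ∀ g : G → ℂ,
      ∑ a ∈ A, g a = ∑ f ∈ F, ∑ x ∈ P, w f x * g (x + f) := by
  have h' : ∀ a : G, ∃ f : G, a ∈ A → f ∈ F ∧ a - f ∈ P := by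
    intro a
    by_cases ha : a ∈ A
    · obtain ⟨f, hf, hfP⟩ := h a ha
      exact ⟨f, fun _ => ⟨hf, hfP⟩⟩
    · exact ⟨0, fun h => absurd h ha⟩
  choose fa hfa using h'
  refine ⟨fun f x => if x + f ∈ A ∧ fa (x + f) = f then 1 else 0, ?_, ?_⟩
  · intro f x
    dsimp only
    split_ifs
    · rw [norm_one]
    · rw [norm_zero]; exact zero_le_one
  · intro g
    have h1 : ∑ a ∈ A, g a = ∑ f ∈ F, ∑ a ∈ A with fa a = f, g a :=
      (Finset.sum_fiberwise_of_maps_to (fun a ha => (hfa a ha).1) g).symm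
    rw [h1]
    refine Finset.sum_congr rfl fun f _ => ?_
    have h2 : ∀ x ∈ P, (if x + f ∈ A ∧ fa (x + f) = f then (1 : ℂ) else 0) * g (x + f) =
        if x + f ∈ A ∧ fa (x + f) = f then g (x + f) else 0 := by
      intro x _
      split_ifs
      · rw [one_mul]
      · rw [zero_mul]
    rw [Finset.sum_congr rfl h2, ← Finset.sum_filter]
    symm
    refine Finset.sum_bij (fun x _ => x + f) ?_ ?_ ?_ ?_
    · intro x hx
      rw [Finset.mem_filter] at hx ⊢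
      exact hx.2
    · intro x _ y _ hxy
      exact add_right_cancel hxy
    · intro a ha
      rw [Finset.mem_filter] at ha
      refine ⟨a - f, ?_, sub_add_cancel a f⟩
      rw [Finset.mem_filter, sub_add_cancel]
      refine ⟨?_, ha⟩
      have := (hfa a ha.1).2
      rwa [ha.2] at this
    · intro x _
      rfl

/-- the number of elements of a covered set. -/
theorem FNB_card {G : Type*} [AddCommGroup G] [DecidableEq G] (A P F : Finset G)
    (h : ∀ a ∈ A, ∃ f ∈ F, a - f ∈ P) : A.card ≤ F.card * P.card := by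
  have h1 : A ⊆ (F ×ˢ P).image (fun z => z.1 + z.2) := by
    intro a ha
    obtain ⟨f, hf, hfP⟩ := h a ha
    rw [Finset.mem_image]
    exact ⟨(f, a - f), Finset.mem_product.2 ⟨hf, hfP⟩, add_sub_cancel f a⟩
  exact (Finset.card_le_card h1).trans (Finset.card_image_le.trans (Finset.card_product F P).le)

/-- for `p` large `p ^ ε` is large. -/
theorem FNB_large (ε L : ℝ) (hε : 0 < ε) : ∃ p₀ : ℕ, ∀ p : ℕ, p₀ ≤ p → L ≤ (p : ℝ) ^ ε := by
  have h1 : Filter.Tendsto (fun p : ℕ => (p : ℝ) ^ ε) Filter.atTop Filter.atTop :=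
    (tendsto_rpow_atTop hε).comp tendsto_natCast_atTop_atTop
  obtain ⟨p₀, hp₀⟩ := Filter.eventually_atTop.1 (h1.eventually_ge_atTop L)
  exact ⟨p₀, fun p hp => hp₀ p hp⟩

/-- FNB (Theorem B). -/
theorem FNB (hFRE : FRE_stmt) (hTHB : THB_stmt) : FNB_stmt := by
  intro K ε hε
  obtain ⟨d, C, hC1, hF⟩ := hFRE K
  obtain ⟨δ, p₁, hδ, hT⟩ := hTHB d (ε / 2) (by positivity)
  obtain ⟨p₂, hp₂⟩ := FNB_large (ε / 2) (C ^ 2) (by positivity)
  obtain ⟨p₃, hp₃⟩ := FNB_large (δ / 2) (C ^ 4) (by positivity)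
  refine ⟨δ / 2, max (max p₁ p₂) p₃, by positivity, ?_⟩
  intro p _ hp A B hA hB hAK hBK hAε hBε hABε χ hχ β hβ
  have hp1' : p₁ ≤ p := (le_max_left _ _).trans ((le_max_left _ _).trans hp)
  have hp2' : p₂ ≤ p := (le_max_right _ _).trans ((le_max_left _ _).trans hp)
  have hp3' : p₃ ≤ p := (le_max_right _ _).trans hp
  have hC2 := hp₂ p hp2'
  have hC4 := hp₃ p hp3'
  have hpp : (0 : ℝ) < p := Nat.cast_pos.2 (Fact.out : p.Prime).pos
  have hC0 : 0 < C := by linarith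
  obtain ⟨P, F, hP, hFc, hPc, hAF⟩ := hF p A hA hAK
  obtain ⟨Q, F', hQ, hFc', hQc, hBF⟩ := hF p B hB hBK
  have hAcard : (A.card : ℝ) ≤ C * ((P 1).card : ℝ) := by
    have h1 : (A.card : ℝ) ≤ (F.card : ℝ) * ((P 1).card : ℝ) := by
      exact_mod_cast FNB_card A (P 1) F hAF
    exact h1.trans (mul_le_mul_of_nonneg_right hFc (Nat.cast_nonneg _))
  have hBcard : (B.card : ℝ) ≤ C * ((Q 1).card : ℝ) := by
    have h1 : (B.card : ℝ) ≤ (F'.card : ℝ) * ((Q 1).card : ℝ) := by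
      exact_mod_cast FNB_card B (Q 1) F' hBF
    exact h1.trans (mul_le_mul_of_nonneg_right hFc' (Nat.cast_nonneg _))
  have hCle : C ≤ C ^ 2 := by nlinarith
  have hsp : (p : ℝ) ^ ε = (p : ℝ) ^ (ε / 2) * (p : ℝ) ^ (ε / 2) := by
    rw [← Real.rpow_add hpp]
    congr 1
    ring
  have hpe : 0 < (p : ℝ) ^ (ε / 2) := Real.rpow_pos_of_pos hpp _
  have hone : ∀ X : ℝ, (p : ℝ) ^ ε ≤ C * X → (p : ℝ) ^ (ε / 2) ≤ X := by
    intro X hX
    rw [hsp] at hX
    have h1 : C * (p : ℝ) ^ (ε / 2) ≤ C * X :=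
      (mul_le_mul_of_nonneg_right (hCle.trans hC2) hpe.le).trans hX
    exact le_of_mul_le_mul_left h1 hC0
  have hP1 := hone _ (hAε.trans hAcard)
  have hQ1 := hone _ (hBε.trans hBcard)
  have hPQ : (p : ℝ) ^ (1 / 2 + ε / 2) ≤ ((P 1).card : ℝ) * ((Q 1).card : ℝ) := by
    have h1 : (A.card : ℝ) * (B.card : ℝ) ≤
        (C * ((P 1).card : ℝ)) * (C * ((Q 1).card : ℝ)) :=
      mul_le_mul hAcard hBcard (Nat.cast_nonneg _) (by positivity)
    have h2 : (p : ℝ) ^ (1 / 2 + ε) = (p : ℝ) ^ (ε / 2) * (p : ℝ) ^ (1 / 2 + ε / 2) := by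
      rw [← Real.rpow_add hpp]
      congr 1
      ring
    have h3 : 0 < (p : ℝ) ^ (1 / 2 + ε / 2) := Real.rpow_pos_of_pos hpp _
    have h4 : C ^ 2 * (p : ℝ) ^ (1 / 2 + ε / 2) ≤ C ^ 2 * (((P 1).card : ℝ) * ((Q 1).card : ℝ)) := by
      calc C ^ 2 * (p : ℝ) ^ (1 / 2 + ε / 2) ≤ (p : ℝ) ^ (ε / 2) * (p : ℝ) ^ (1 / 2 + ε / 2) :=
            mul_le_mul_of_nonneg_right hC2 h3.le
        _ = (p : ℝ) ^ (1 / 2 + ε) := h2.symm
        _ ≤ (A.card : ℝ) * (B.card : ℝ) := hABε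
        _ ≤ (C * ((P 1).card : ℝ)) * (C * ((Q 1).card : ℝ)) := h1
        _ = C ^ 2 * (((P 1).card : ℝ) * ((Q 1).card : ℝ)) := by ring
    exact le_of_mul_le_mul_left h4 (by positivity)
  have hTB := hT p hp1' P Q hP hQ hP1 hQ1 hPQ χ hχ
  obtain ⟨w, hw, hwsum⟩ := FNB_split A (P 1) F hAF
  obtain ⟨w', hw', hwsum'⟩ := FNB_split B (Q 1) F' hBF
  -- the phases
  set Z : ZMod p → ℂ := fun a => ∑ b ∈ B, β b * χ (a + b) with hZ
  have hph : ∀ a, ∃ u : ℂ, ‖u‖ ≤ 1 ∧ u * Z a = (‖Z a‖ : ℂ) := by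
    intro a
    by_cases h0 : Z a = 0
    · exact ⟨0, by rw [norm_zero]; exact zero_le_one, by rw [h0]; simp⟩
    · refine ⟨(starRingEnd ℂ) (Z a) / (‖Z a‖ : ℂ), ?_, ?_⟩
      · rw [norm_div, RCLike.norm_conj, Complex.norm_real, norm_norm,
          div_self (norm_ne_zero_iff.2 h0)]
      · have h1 : (‖Z a‖ : ℂ) ≠ 0 := by
          rw [Ne, Complex.ofReal_eq_zero]
          exact norm_ne_zero_iff.2 h0
        rw [div_mul_eq_mul_div, div_eq_iff h1, mul_comm, Complex.mul_conj, Complex.normSq_eq_norm_sq]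
        push_cast
        ring
  choose α hα hαZ using hph
  have hsum : ((∑ a ∈ A, ‖Z a‖ : ℝ) : ℂ) = ∑ f ∈ F, ∑ g ∈ F', ∑ a ∈ P 1, ∑ b ∈ Q 1,
      (w f a * α (a + f)) * (w' g b * β (b + g)) * χ (a + b + (f + g)) := by
    push_cast
    calc ∑ a ∈ A, (‖Z a‖ : ℂ) = ∑ a ∈ A, α a * Z a :=
          Finset.sum_congr rfl fun a _ => (hαZ a).symm
      _ = ∑ f ∈ F, ∑ a ∈ P 1, w f a * (α (a + f) * Z (a + f)) := hwsum _
      _ = ∑ f ∈ F, ∑ a ∈ P 1, ∑ g ∈ F', ∑ b ∈ Q 1,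
          (w f a * α (a + f)) * (w' g b * β (b + g)) * χ (a + b + (f + g)) := by
        refine Finset.sum_congr rfl fun f _ => Finset.sum_congr rfl fun a _ => ?_
        rw [hZ]
        dsimp only
        rw [hwsum' (fun b => β b * χ (a + f + b)), ← mul_assoc, Finset.mul_sum]
        refine Finset.sum_congr rfl fun g _ => ?_
        rw [Finset.mul_sum]
        refine Finset.sum_congr rfl fun b _ => ?_
        have h1 : a + f + (b + g) = a + b + (f + g) := by ring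
        rw [h1]
        ring
      _ = _ := by
        refine Finset.sum_congr rfl fun f _ => ?_
        rw [Finset.sum_comm]
  have hnn : 0 ≤ ∑ a ∈ A, ‖Z a‖ := Finset.sum_nonneg fun a _ => norm_nonneg _
  have hterm : ∀ f ∈ F, ∀ g ∈ F', ‖∑ a ∈ P 1, ∑ b ∈ Q 1,
      (w f a * α (a + f)) * (w' g b * β (b + g)) * χ (a + b + (f + g))‖ ≤
      (p : ℝ) ^ (-δ) * (((P 1).card : ℝ) * ((Q 1).card : ℝ)) := by
    intro f _ g _
    refine hTB (f + g) (fun a => w f a * α (a + f)) (fun b => w' g b * β (b + g)) ?_ ?_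
    · intro a
      rw [norm_mul]
      exact mul_le_one₀ (hw f a) (norm_nonneg _) (hα _)
    · intro b
      rw [norm_mul]
      exact mul_le_one₀ (hw' g b) (norm_nonneg _) (hβ _)
  have hδ0 : 0 < (p : ℝ) ^ (-δ) := Real.rpow_pos_of_pos hpp _
  have hbound : ∑ a ∈ A, ‖Z a‖ ≤
      (F.card : ℝ) * ((F'.card : ℝ) * ((p : ℝ) ^ (-δ) * (((P 1).card : ℝ) * ((Q 1).card : ℝ)))) := by
    have h1 : ∑ a ∈ A, ‖Z a‖ = ‖((∑ a ∈ A, ‖Z a‖ : ℝ) : ℂ)‖ := by
      rw [Complex.norm_real, Real.norm_of_nonneg hnn]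
    rw [h1, hsum]
    refine (norm_sum_le _ _).trans ?_
    refine (Finset.sum_le_sum fun f hf => (norm_sum_le _ _).trans
      (Finset.sum_le_sum fun g hg => hterm f hf g hg)).trans ?_
    rw [Finset.sum_const, Finset.sum_const, nsmul_eq_mul, nsmul_eq_mul]
  have hX : 0 ≤ (p : ℝ) ^ (-δ) * (((P 1).card : ℝ) * ((Q 1).card : ℝ)) := by positivity
  have hAB : 0 ≤ (A.card : ℝ) * (B.card : ℝ) := by positivity
  calc ∑ a ∈ A, ‖Z a‖
      ≤ (F.card : ℝ) * ((F'.card : ℝ) * ((p : ℝ) ^ (-δ) * (((P 1).card : ℝ) * ((Q 1).card : ℝ)))) :=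
        hbound
    _ ≤ C * (C * ((p : ℝ) ^ (-δ) * (((P 1).card : ℝ) * ((Q 1).card : ℝ)))) := by
        refine mul_le_mul hFc (mul_le_mul_of_nonneg_right hFc' hX) (by positivity) hC0.le
    _ ≤ C * (C * ((p : ℝ) ^ (-δ) * ((C * (A.card : ℝ)) * (C * (B.card : ℝ))))) := by
        refine mul_le_mul_of_nonneg_left (mul_le_mul_of_nonneg_left
          (mul_le_mul_of_nonneg_left ?_ hδ0.le) hC0.le) hC0.le
        exact mul_le_mul hPc hQc (Nat.cast_nonneg _) (by positivity)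
    _ = C ^ 4 * (p : ℝ) ^ (-δ) * ((A.card : ℝ) * (B.card : ℝ)) := by ring
    _ ≤ (p : ℝ) ^ (δ / 2) * (p : ℝ) ^ (-δ) * ((A.card : ℝ) * (B.card : ℝ)) :=
        mul_le_mul_of_nonneg_right (mul_le_mul_of_nonneg_right hC4 hδ0.le) hAB
    _ = (p : ℝ) ^ (-(δ / 2)) * ((A.card : ℝ) * (B.card : ℝ)) := by
        rw [← Real.rpow_add hpp]
        congr 2
        ring

end Pool.Agent.helper85.PG
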